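import Pool.Agent.MP_250189_co.Mg.H72Main

open Pool.Agent.MP_250189_co.H72

namespace Pool.Agent.Results.MP_250189_co.StrictlyConvex

/-- Every finite three-connected planar graph has a greedy noncrossing straight-line drawing all of
whose faces are strictly convex polygons. -/
theorem result {V : Type*} [Finite V] (G : SimpleGraph V) (h4 : 4 ≤ Nat.card V)
    (h3 : ∀ a b : V, a ≠ b → (G.induce ({a, b}ᶜ : Set V)).Connected) (hpl : Planar G) :
    ∃ p : V → EuclideanSpace ℝ (Fin 2), Function.Injective p ∧ Greedy G p ∧
      Noncrossing G p ∧ StrictlyConvexFaces G p :=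
  Pool.Agent.MP_250189_co.main_strict G h4 h3 hpl

end Pool.Agent.Results.MP_250189_co.StrictlyConvex
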